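import Pool.Agent.Q217.MM.Dyn

set_option autoImplicit false

open Filter Topology

namespace Pool.Agent.Results.MP_a87fbc_pr.ConvergenceInLaw

/-- The cookie configurations of the complete binary tree of height `n`: for each of the two
children of the root, the cookie on the edge to that child (`true` is `+1`, `false` is `-1`)
together with the cookie configuration of the subtree of height `n - 1` below that child. -/
def Cookies : ℕ → Type
  | 0 => Unit
  | (n + 1) => Fin 2 → Bool × Cookies n

instance instDecidableEqCookies : (n : ℕ) → DecidableEq (Cookies n)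
  | 0 => inferInstanceAs (DecidableEq Unit)
  | (n + 1) =>
    have := instDecidableEqCookies n
    inferInstanceAs (DecidableEq (Fin 2 → Bool × Cookies n))

instance instFintypeCookies : (n : ℕ) → Fintype (Cookies n)
  | 0 => inferInstanceAs (Fintype Unit)
  | (n + 1) =>
    have := instFintypeCookies n
    inferInstanceAs (Fintype (Fin 2 → Bool × Cookies n))

/-- the value `±1` of a cookie -/
def sgn (b : Bool) : ℤ := if b then 1 else -1

/-- The value of the game of `n` moves on the tree of height `n` with cookies `c`; the flag says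
whether the maximiser (`true`) or the minimiser (`false`) moves first, and the players alternate. -/
def val : (n : ℕ) → Bool → Cookies n → ℤ
  | 0, _, _ => 0
  | (n + 1), true, c => max (sgn (c 0).1 + val n false (c 0).2) (sgn (c 1).1 + val n false (c 1).2)
  | (n + 1), false, c => min (sgn (c 0).1 + val n true (c 0).2) (sgn (c 1).1 + val n true (c 1).2)

/-- The probability that the value of the game of `n` moves is at most `i`, all cookies being
independent and uniform on `{-1, 1}` (that is, all cookie configurations equally likely). -/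
noncomputable def prob (n : ℕ) (b : Bool) (i : ℤ) : ℝ :=
  ((Finset.univ.filter (fun c : Cookies n => val n b c ≤ i)).card : ℝ) / Fintype.card (Cookies n)

theorem card_succ (n : ℕ) : Fintype.card (Cookies (n + 1)) = (2 * Fintype.card (Cookies n)) ^ 2 := by
  have h : Fintype.card (Cookies (n + 1)) = Fintype.card (Fin 2 → Bool × Cookies n) := rfl
  rw [h]
  simp

theorem card_pos (n : ℕ) : 0 < Fintype.card (Cookies n) := by
  induction n with
  | zero => exact Nat.one_pos
  | succ n ih => rw [card_succ]; positivity

/-- number of `(edge, subtree)` configurations with a property of the value -/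
theorem card_pair (n : ℕ) (p : Cookies n → ℤ) (i : ℤ) :
    (((Finset.univ : Finset (Bool × Cookies n)).filter (fun e => sgn e.1 + p e.2 ≤ i)).card : ℝ) =
      ((Finset.univ.filter (fun c : Cookies n => p c ≤ i - 1)).card : ℝ) +
      ((Finset.univ.filter (fun c : Cookies n => p c ≤ i + 1)).card : ℝ) := by
  rw [Finset.card_filter, Fintype.sum_prod_type, Fintype.sum_bool, Finset.card_filter,
    Finset.card_filter]
  push_cast
  congr 1
  · refine Finset.sum_congr rfl fun c _ => ?_
    have : (sgn true + p c ≤ i) ↔ (p c ≤ i - 1) := by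
      simp only [sgn, if_true]
      omega
    simp only [this]
  · refine Finset.sum_congr rfl fun c _ => ?_
    have : (sgn false + p c ≤ i) ↔ (p c ≤ i + 1) := by
      simp [sgn]
      omega
    simp only [this]

/-- a configuration of height `n + 1` as a function -/
def unroll (n : ℕ) : Cookies (n + 1) ≃ (Fin 2 → Bool × Cookies n) := Equiv.refl _

theorem prob_max (n : ℕ) (i : ℤ) :
    prob (n + 1) true i = ((prob n false (i - 1) + prob n false (i + 1)) / 2) ^ 2 := by
  have h2 : ((Finset.univ.filter (fun c : Cookies (n + 1) => val (n + 1) true c ≤ i)).card : ℝ) =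
      (((Finset.univ : Finset (Bool × Cookies n)).filter
        (fun e => sgn e.1 + val n false e.2 ≤ i)).card : ℝ) ^ 2 := by
    have h1 : (Finset.univ.filter (fun c : Cookies (n + 1) => val (n + 1) true c ≤ i)).card =
        (Fintype.piFinset (fun _ : Fin 2 => (Finset.univ : Finset (Bool × Cookies n)).filter
          (fun e => sgn e.1 + val n false e.2 ≤ i))).card := by
      refine Finset.card_equiv (unroll n) fun c => ?_
      rw [Fintype.mem_piFinset]
      simp only [Finset.mem_filter, Finset.mem_univ, true_and]
      rw [Fin.forall_fin_two]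
      exact max_le_iff
    rw [h1, Fintype.card_piFinset]
    simp
  unfold prob
  rw [h2, card_pair, card_succ]
  have h3 : (Fintype.card (Cookies n) : ℝ) ≠ 0 := by
    have := card_pos n
    positivity
  push_cast
  field_simp

theorem prob_min (n : ℕ) (i : ℤ) :
    prob (n + 1) false i = 1 - (1 - (prob n true (i - 1) + prob n true (i + 1)) / 2) ^ 2 := by
  have h2 : ((Finset.univ.filter (fun c : Cookies (n + 1) => ¬ val (n + 1) false c ≤ i)).card : ℝ) =
      (((Finset.univ : Finset (Bool × Cookies n)).filter
        (fun e => ¬ sgn e.1 + val n true e.2 ≤ i)).card : ℝ) ^ 2 := by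
    have h1 : (Finset.univ.filter (fun c : Cookies (n + 1) => ¬ val (n + 1) false c ≤ i)).card =
        (Fintype.piFinset (fun _ : Fin 2 => (Finset.univ : Finset (Bool × Cookies n)).filter
          (fun e => ¬ sgn e.1 + val n true e.2 ≤ i))).card := by
      refine Finset.card_equiv (unroll n) fun c => ?_
      rw [Fintype.mem_piFinset]
      simp only [Finset.mem_filter, Finset.mem_univ, true_and]
      rw [Fin.forall_fin_two]
      simp only [not_le]
      exact lt_min_iff
    rw [h1, Fintype.card_piFinset]
    simp
  have h3 : (((Finset.univ : Finset (Bool × Cookies n)).filter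
        (fun e => sgn e.1 + val n true e.2 ≤ i)).card : ℝ) + (((Finset.univ : Finset (Bool × Cookies n)).filter
        (fun e => ¬ sgn e.1 + val n true e.2 ≤ i)).card : ℝ) = 2 * Fintype.card (Cookies n) := by
    have := Finset.card_filter_add_card_filter_not (s := (Finset.univ : Finset (Bool × Cookies n)))
      (fun e => sgn e.1 + val n true e.2 ≤ i)
    rw [← Nat.cast_add, this]
    simp
  have h4 : ((Finset.univ.filter (fun c : Cookies (n + 1) => val (n + 1) false c ≤ i)).card : ℝ) +
      ((Finset.univ.filter (fun c : Cookies (n + 1) => ¬ val (n + 1) false c ≤ i)).card : ℝ) =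
      (2 * Fintype.card (Cookies n)) ^ 2 := by
    have := Finset.card_filter_add_card_filter_not (s := (Finset.univ : Finset (Cookies (n + 1))))
      (fun c => val (n + 1) false c ≤ i)
    rw [← Nat.cast_add, this, Finset.card_univ, card_succ]
    push_cast
    ring
  rw [card_pair n (val n true) i] at h3
  unfold prob
  rw [card_succ]
  have h5 : (0 : ℝ) < Fintype.card (Cookies n) := by exact_mod_cast card_pos n
  set N : ℝ := (Fintype.card (Cookies n) : ℝ) with hN
  set a := ((Finset.univ.filter (fun c : Cookies n => val n true c ≤ i - 1)).card : ℝ)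
  set b := ((Finset.univ.filter (fun c : Cookies n => val n true c ≤ i + 1)).card : ℝ)
  set u := ((Finset.univ.filter (fun c : Cookies (n + 1) => val (n + 1) false c ≤ i)).card : ℝ)
  set w := (((Finset.univ : Finset (Bool × Cookies n)).filter
        (fun e => ¬ sgn e.1 + val n true e.2 ≤ i)).card : ℝ)
  rw [h2] at h4
  have e1 : u = (2 * N) ^ 2 - w ^ 2 := by linarith
  have e2 : w = 2 * N - (a + b) := by linarith
  rw [e1, e2]
  push_cast
  rw [← hN]
  field_simp

theorem prob_zero (b : Bool) (i : ℤ) : prob 0 b i = if 0 ≤ i then 1 else 0 := by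
  unfold prob
  have h1 : Fintype.card (Cookies 0) = 1 := rfl
  rw [h1]
  split_ifs with h
  · have : (Finset.univ.filter (fun c : Cookies 0 => val 0 b c ≤ i)) = Finset.univ := by
      ext c
      simp [val, h]
    rw [this, Finset.card_univ, h1]
    norm_num
  · have : (Finset.univ.filter (fun c : Cookies 0 => val 0 b c ≤ i)) = ∅ := by
      ext c
      simp [val, h]
    rw [this]
    simp

/-- two levels -/
theorem prob_two (n : ℕ) (i : ℤ) :
    prob (2 * (n + 1)) true i =
      (1 - (1 / 2) * (1 - (prob (2 * n) true (i - 2) + prob (2 * n) true i) / 2) ^ 2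
        - (1 / 2) * (1 - (prob (2 * n) true i + prob (2 * n) true (i + 2)) / 2) ^ 2) ^ 2 := by
  have e : 2 * (n + 1) = (2 * n + 1) + 1 := by ring
  rw [e, prob_max, prob_min, prob_min]
  have e1 : i - 1 - 1 = i - 2 := by ring
  have e2 : i - 1 + 1 = i := by ring
  have e3 : i + 1 - 1 = i := by ring
  have e4 : i + 1 + 1 = i + 2 := by ring
  rw [e1, e2, e3, e4]
  ring

theorem seq_rec (r : ℤ) (n : ℕ) : (fun j : ℤ => prob (2 * (n + 1)) true (2 * j + r)) =
    Pool.Agent.Q217.MM.Psi (fun j : ℤ => prob (2 * n) true (2 * j + r)) := by
  funext j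
  rw [prob_two]
  unfold Pool.Agent.Q217.MM.Psi Pool.Agent.Q217.MM.GG
  have e1 : 2 * (j - 1) + r = 2 * j + r - 2 := by ring
  have e2 : 2 * (j + 1) + r = 2 * j + r + 2 := by ring
  simp only [e1, e2]

/-- The values `V_n` of the min-max game on the binary tree converge in distribution: the
distribution functions converge at every integer to a proper distribution function. The limit
`G` satisfies `G (i + 2) = 2 √(G i) - G i`. -/
theorem result : ∃ G : ℤ → ℝ, Monotone G ∧ Tendsto G atBot (𝓝 0) ∧ Tendsto G atTop (𝓝 1) ∧
    (∀ i, G (i + 2) = 2 * √(G i) - G i) ∧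
    ∀ i, Tendsto (fun n : ℕ => prob (2 * n) true i) atTop (𝓝 (G i)) := by
  obtain ⟨F, hF, hlim⟩ := Pool.Agent.Q217.MM.main (x := fun n j => prob (2 * n) true (2 * j + 0))
    (fun j => by
      show prob (2 * 0) true (2 * j + 0) = _
      rw [mul_zero, prob_zero]
      have : (0 ≤ 2 * j + 0) ↔ 0 ≤ j := by omega
      simp only [this])
    (fun n => seq_rec 0 n)
  have hodd : ∀ n : ℕ, (fun j : ℤ => prob (2 * n) true (2 * j + 1)) =
      fun j : ℤ => prob (2 * n) true (2 * j + 0) := by
    intro n
    induction n with
    | zero =>
      funext j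
      rw [mul_zero, prob_zero, prob_zero]
      have h1 : (0 ≤ 2 * j + 0) ↔ 0 ≤ j := by omega
      have h2 : (0 ≤ 2 * j + 1) ↔ 0 ≤ j := by omega
      simp only [h1, h2]
    | succ n ih => rw [seq_rec, seq_rec, ih]
  have hhalf : ∀ (n : ℕ) (i : ℤ), prob (2 * n) true i = prob (2 * n) true (2 * (i / 2) + 0) := by
    intro n i
    rcases Int.emod_two_eq_zero_or_one i with h | h
    · have e : i = 2 * (i / 2) + 0 := by omega
      rw [← e]
    · have e : i = 2 * (i / 2) + 1 := by omega
      have h2 : prob (2 * n) true (2 * (i / 2) + 1) = prob (2 * n) true (2 * (i / 2) + 0) :=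
        congrFun (hodd n) (i / 2)
      rw [← h2, ← e]
  refine ⟨fun i => F (i / 2), ?_, ?_, ?_, ?_, ?_⟩
  · intro i j hij
    exact hF.strictMono.monotone (Int.ediv_le_ediv (by norm_num) hij)
  · refine hF.tendsto_bot.comp ?_
    rw [tendsto_atBot]
    intro b
    filter_upwards [eventually_le_atBot (2 * b)] with i hi
    omega
  · refine hF.tendsto_top.comp ?_
    rw [tendsto_atTop]
    intro b
    filter_upwards [eventually_ge_atTop (2 * b)] with i hi
    omega
  · intro i
    have e : (i + 2) / 2 = i / 2 + 1 := by omega
    simp only [e]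
    exact hF.next _
  · intro i
    simp only [hhalf _ i]
    exact hlim (i / 2)

end Pool.Agent.Results.MP_a87fbc_pr.ConvergenceInLaw
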